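import Pool.Agent.Helper17.FP.Stmts

set_option autoImplicit false

/-! MP_c38931_co, project FP, module RIII: the primes `q` between `x exp (- L ^ (9 / 10))` and
`x sqrt L`. -/

open Finset

namespace Pool.Agent.Helper17.FP

open Pool.Agent.Helper17.SO Pool.Agent.Helper17.SV

/-- the substitution `L = u ^ 10` -/
theorem riii_sub (L : ℝ) (hL : 0 < L) : ∃ u : ℝ, 0 < u ∧ L = u ^ 10 ∧ L ^ (9 / 10 : ℝ) = u ^ 9 ∧
    Real.sqrt L = u ^ 5 ∧ L ^ (-(1 / 10) : ℝ) = u⁻¹ := by
  refine ⟨L ^ (1 / 10 : ℝ), Real.rpow_pos_of_pos hL _, ?_, ?_, ?_, ?_⟩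
  · rw [← Real.rpow_natCast, ← Real.rpow_mul hL.le]
    norm_num
  · rw [← Real.rpow_natCast, ← Real.rpow_mul hL.le]
    norm_num
  · rw [Real.sqrt_eq_rpow, ← Real.rpow_natCast, ← Real.rpow_mul hL.le]
    norm_num
  · rw [Real.rpow_neg hL.le]

/-- the sum of the reciprocals of the primes in `(Y, N]` by dyadic blocks -/
theorem riii_dyadic {C2 : ℝ}
    (h2 : ∀ Q : ℕ, 2 ≤ Q → ∑ q ∈ PP Q (2 * Q), 1 / (q : ℝ) ≤ C2 / Real.log Q) (Y N : ℕ)
    (hY : 2 ≤ Y) :
    ∑ q ∈ PP Y N, 1 / (q : ℝ) ≤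
      ∑ i ∈ Ico (Nat.log 2 Y) (Nat.log 2 N + 1), C2 / (i * Real.log 2) := by
  classical
  have hmaps : ∀ q ∈ PP Y N, Nat.log 2 (q - 1) ∈ Ico (Nat.log 2 Y) (Nat.log 2 N + 1) := by
    intro q hq
    simp only [PP, mem_filter, mem_Ioc] at hq
    rw [mem_Ico]
    constructor
    · exact Nat.log_mono_right (by omega)
    · have : Nat.log 2 (q - 1) ≤ Nat.log 2 N := Nat.log_mono_right (by omega)
      omega
  rw [← Finset.sum_fiberwise_of_maps_to hmaps]
  refine Finset.sum_le_sum fun i hi => ?_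
  have hi1 : 1 ≤ i := by
    have h3 : Nat.log 2 Y ≤ i := (mem_Ico.1 hi).1
    have h4 : Nat.log 2 2 ≤ Nat.log 2 Y := Nat.log_mono_right hY
    have h5 : Nat.log 2 2 = 1 := by simpa using Nat.log_pow (b := 2) (by norm_num) 1
    omega
  have hsub : (PP Y N).filter (fun q => Nat.log 2 (q - 1) = i) ⊆ PP (2 ^ i) (2 * 2 ^ i) := by
    intro q hq
    simp only [PP, mem_filter, mem_Ioc] at hq ⊢
    obtain ⟨⟨⟨h3, h4⟩, h5⟩, h6⟩ := hq
    have hne : q - 1 ≠ 0 := by omega
    have h7 : 2 ^ i ≤ q - 1 := by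
      rw [← h6]
      exact Nat.pow_log_le_self 2 hne
    have h8 : q - 1 < 2 ^ (i + 1) := by
      rw [← h6]
      exact Nat.lt_pow_succ_log_self (by norm_num) _
    rw [pow_succ] at h8
    refine ⟨⟨by omega, by omega⟩, h5⟩
  calc ∑ q ∈ (PP Y N).filter (fun q => Nat.log 2 (q - 1) = i), 1 / (q : ℝ)
      ≤ ∑ q ∈ PP (2 ^ i) (2 * 2 ^ i), 1 / (q : ℝ) :=
        Finset.sum_le_sum_of_subset_of_nonneg hsub fun _ _ _ => by positivity
    _ ≤ C2 / Real.log ((2 ^ i : ℕ) : ℝ) := h2 _ (by
        calc 2 = 2 ^ 1 := by norm_num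
          _ ≤ 2 ^ i := Nat.pow_le_pow_right (by norm_num) hi1)
    _ = C2 / (i * Real.log 2) := by
        push_cast
        rw [Real.log_pow]

theorem st_RIII (hCHEB : ST_CHEB) (hREC : ST_REC) (hTWO : ST_TWO) : ST_RIII := by
  intro lam hlam
  obtain ⟨C1, hC1, h1⟩ := hCHEB
  obtain ⟨C2, hC2, h2⟩ := hREC
  refine ⟨128 * C2 + 2 * C1 + 4, by positivity, ?_⟩
  intro x hx S hS
  classical
  have hx0 : (0 : ℝ) < x := by
    have : (16 : ℝ) ≤ x := by exact_mod_cast hx
    linarith
  have hx16 : (16 : ℝ) ≤ x := by exact_mod_cast hx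
  have hL : 0 < Real.log x := Real.log_pos (by linarith)
  obtain ⟨u, hu, hLu, h9, h5, hinv⟩ := riii_sub (Real.log x) hL
  rw [hinv]
  have hui : 0 < u⁻¹ := inv_pos.2 hu
  by_cases hu2 : u < 2
  · -- small `x`
    have hsub : S ⊆ range (x + 1) := fun k hk => mem_range.2 (Nat.lt_succ_of_le (hS k hk).1)
    have hc : (S.card : ℝ) ≤ x + 1 := by
      have := Finset.card_le_card hsub
      rw [card_range] at this
      exact_mod_cast this
    have h3 : (1 / 2 : ℝ) ≤ u⁻¹ := by
      rw [le_inv_comm₀ (by norm_num) hu]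
      linarith
    have h4 : 4 * (x : ℝ) * (1 / 2) ≤ (128 * C2 + 2 * C1 + 4) * x * u⁻¹ := by
      apply mul_le_mul _ h3 (by norm_num) (by positivity)
      nlinarith
    linarith
  · push Not at hu2
    rw [h9, h5] at hS
    -- the range of `q`
    set y : ℝ := (x : ℝ) / Real.exp (u ^ 9) with hy
    set Y : ℕ := ⌊y⌋₊ with hYd
    set N : ℕ := ⌊(x : ℝ) * u ^ 5⌋₊ with hNd
    have hy0 : 0 < y := by positivity
    have hlogy : Real.log y = u ^ 10 - u ^ 9 := by
      rw [hy, Real.log_div hx0.ne' (Real.exp_ne_zero _), Real.log_exp, hLu]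
    have hu1 : 1 ≤ u := by linarith
    have hu9 : 0 < u ^ 9 := by positivity
    have h10 : u ^ 10 = u * u ^ 9 := by ring
    have h512 : (512 : ℝ) ≤ u ^ 9 := by
      calc (512 : ℝ) = 2 ^ 9 := by norm_num
        _ ≤ u ^ 9 := pow_le_pow_left₀ (by norm_num) hu2 9
    have hl2 : Real.log 2 ≤ 1 := by
      have := Real.log_two_lt_d9
      linarith
    have hl2' : 1 / 2 ≤ Real.log 2 := by
      have := Real.log_two_gt_d9
      linarith
    have hylow : u ^ 10 / 4 ≤ u ^ 10 - u ^ 9 - Real.log 2 := by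
      rw [h10]
      nlinarith
    have hY2 : 2 ≤ Y := by
      rw [hYd]
      apply Nat.le_floor
      push_cast
      rw [← Real.log_le_log_iff (by norm_num) hy0, hlogy]
      nlinarith
    have hYy : y < Y + 1 := Nat.lt_floor_add_one y
    have hNx : x ≤ N := by
      rw [hNd]
      apply Nat.le_floor
      have : 1 ≤ u ^ 5 := one_le_pow₀ hu1
      nlinarith
    have hNle : (N : ℝ) ≤ x * u ^ 5 := Nat.floor_le (by positivity)
    have hN2 : 2 ≤ N := by omega
    have hN0 : (0 : ℝ) < N := by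
      have : (2 : ℝ) ≤ N := by exact_mod_cast hN2
      linarith
    have hlogN : u ^ 10 ≤ Real.log N := by
      rw [← hLu]
      exact Real.log_le_log hx0 (by exact_mod_cast hNx)
    have hlogN' : Real.log N ≤ u ^ 10 + 5 * u := by
      calc Real.log N ≤ Real.log (x * u ^ 5) := Real.log_le_log hN0 hNle
        _ = u ^ 10 + 5 * Real.log u := by
            rw [Real.log_mul hx0.ne' (by positivity), Real.log_pow, hLu]
            norm_num
        _ ≤ u ^ 10 + 5 * u := by
            have := Real.log_le_sub_one_of_pos hu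
            linarith
    -- the covering
    have hcov : S ⊆ (PP Y N).biUnion (fun q => S.filter (fun k => FD lam q k)) := by
      intro k hk
      obtain ⟨_, q, hq, hq1, hq2, hq3⟩ := hS k hk
      rw [mem_biUnion]
      refine ⟨q, ?_, mem_filter.2 ⟨hk, hq3⟩⟩
      simp only [PP, mem_filter, mem_Ioc]
      refine ⟨⟨?_, ?_⟩, hq⟩
      · rw [hYd]
        exact (Nat.floor_lt hy0.le).2 hq1
      · rw [hNd]
        exact Nat.le_floor hq2
    have hcard : (S.card : ℝ) ≤ ∑ q ∈ PP Y N, 2 * ((x : ℝ) / q + 1) := by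
      have h3 := (Finset.card_le_card hcov).trans Finset.card_biUnion_le
      calc (S.card : ℝ) ≤ ((∑ q ∈ PP Y N, (S.filter (fun k => FD lam q k)).card : ℕ) : ℝ) := by
            exact_mod_cast h3
        _ = ∑ q ∈ PP Y N, ((S.filter (fun k => FD lam q k)).card : ℝ) := by push_cast; rfl
        _ ≤ ∑ q ∈ PP Y N, 2 * ((x : ℝ) / q + 1) := by
            refine Finset.sum_le_sum fun q hq => ?_
            have hqp : q.Prime := (mem_filter.1 hq).2
            refine hTWO lam q x hqp _ ?_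
            intro k hk
            obtain ⟨h6, h7⟩ := mem_filter.1 hk
            exact ⟨(hS k h6).1, h7⟩
    have hsplit : ∑ q ∈ PP Y N, 2 * ((x : ℝ) / q + 1) =
        2 * x * ∑ q ∈ PP Y N, 1 / (q : ℝ) + 2 * (PP Y N).card := by
      rw [Finset.mul_sum]
      have : (2 : ℝ) * (PP Y N).card = ∑ q ∈ PP Y N, (2 : ℝ) := by
        rw [sum_const, nsmul_eq_mul]
        ring
      rw [this, ← Finset.sum_add_distrib]
      refine Finset.sum_congr rfl fun q _ => ?_
      ring
    -- the number of primes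
    have hcardP : ((PP Y N).card : ℝ) ≤ C1 * x * u⁻¹ := by
      have hsub : PP Y N ⊆ PP 0 N := by
        intro q hq
        simp only [PP, mem_filter, mem_Ioc] at hq ⊢
        exact ⟨⟨by omega, hq.1.2⟩, hq.2⟩
      have h3 : ((PP Y N).card : ℝ) ≤ (PP 0 N).card := by
        exact_mod_cast Finset.card_le_card hsub
      refine h3.trans ((h1 N hN2).trans ?_)
      have hpos : 0 < Real.log N := by
        have : 0 < u ^ 10 := by positivity
        linarith
      rw [div_le_iff₀ hpos]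
      calc C1 * (N : ℝ) ≤ C1 * (x * u ^ 5) := mul_le_mul_of_nonneg_left hNle hC1.le
        _ ≤ C1 * x * u ^ 9 := by
            have : u ^ 5 ≤ u ^ 9 := pow_le_pow_right₀ hu1 (by norm_num)
            have h8 : 0 ≤ C1 * x := by positivity
            nlinarith
        _ = C1 * x * u⁻¹ * u ^ 10 := by
            field_simp
        _ ≤ C1 * x * u⁻¹ * Real.log N := mul_le_mul_of_nonneg_left hlogN (by positivity)
    -- the sum of the reciprocals
    have hrec : ∑ q ∈ PP Y N, 1 / (q : ℝ) ≤ 64 * C2 * u⁻¹ := by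
      refine (riii_dyadic h2 Y N hY2).trans ?_
      set i0 := Nat.log 2 Y with hi0
      set i1 := Nat.log 2 N with hi1
      have hi0low : u ^ 10 - u ^ 9 - Real.log 2 ≤ i0 * Real.log 2 := by
        have h3 : Y < 2 ^ (i0 + 1) := Nat.lt_pow_succ_log_self (by norm_num) Y
        have h4 : y ≤ (2 : ℝ) ^ (i0 + 1) := by
          have : (Y : ℝ) + 1 ≤ (2 : ℝ) ^ (i0 + 1) := by exact_mod_cast h3
          linarith
        have h6 : Real.log y ≤ (i0 + 1) * Real.log 2 := by
          calc Real.log y ≤ Real.log ((2 : ℝ) ^ (i0 + 1)) := Real.log_le_log hy0 h4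
            _ = (i0 + 1) * Real.log 2 := by rw [Real.log_pow]; push_cast; ring
        rw [hlogy] at h6
        linarith
      have hi1up : i1 * Real.log 2 ≤ u ^ 10 + 5 * u := by
        have h3 : 2 ^ i1 ≤ N := Nat.pow_log_le_self 2 (by omega)
        have h4 : Real.log ((2 : ℝ) ^ i1) ≤ Real.log N :=
          Real.log_le_log (by positivity) (by exact_mod_cast h3)
        rw [Real.log_pow] at h4
        linarith
      have hterm : ∀ i ∈ Ico i0 (i1 + 1), C2 / (i * Real.log 2) ≤ 4 * C2 / u ^ 10 := by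
        intro i hi
        have h3 : (i0 : ℝ) ≤ i := by exact_mod_cast (mem_Ico.1 hi).1
        have h4 : u ^ 10 / 4 ≤ i * Real.log 2 := by nlinarith
        have h6 : 0 < u ^ 10 / 4 := by positivity
        calc C2 / (i * Real.log 2) ≤ C2 / (u ^ 10 / 4) :=
              div_le_div_of_nonneg_left hC2.le h6 h4
          _ = 4 * C2 / u ^ 10 := by field_simp
      have hle : i0 ≤ i1 + 1 := by
        have : i0 ≤ i1 := Nat.log_mono_right (by
          have h3 : (Y : ℝ) ≤ y := Nat.floor_le hy0.le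
          have h4 : y ≤ x := by
            rw [hy]
            apply div_le_self hx0.le
            exact Real.one_le_exp (by positivity)
          have h6 : Y ≤ x := by exact_mod_cast h3.trans h4
          omega)
        omega
      have hcnt : ((Ico i0 (i1 + 1)).card : ℝ) ≤ 16 * u ^ 9 := by
        rw [Nat.card_Ico, Nat.cast_sub hle]
        push_cast
        have h3 : ((i1 : ℝ) + 1 - i0) * Real.log 2 ≤ 8 * u ^ 9 := by
          have h4 : u ≤ u ^ 9 := by
            calc u = u ^ 1 := by ring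
              _ ≤ u ^ 9 := pow_le_pow_right₀ hu1 (by norm_num)
          nlinarith
        nlinarith
      calc ∑ i ∈ Ico i0 (i1 + 1), C2 / (i * Real.log 2)
          ≤ ∑ _i ∈ Ico i0 (i1 + 1), 4 * C2 / u ^ 10 := Finset.sum_le_sum hterm
        _ = (Ico i0 (i1 + 1)).card * (4 * C2 / u ^ 10) := by rw [sum_const, nsmul_eq_mul]
        _ ≤ 16 * u ^ 9 * (4 * C2 / u ^ 10) := mul_le_mul_of_nonneg_right hcnt (by positivity)
        _ = 64 * C2 * u⁻¹ := by field_simp; ring
    calc (S.card : ℝ) ≤ 2 * x * ∑ q ∈ PP Y N, 1 / (q : ℝ) + 2 * (PP Y N).card := by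
          rw [← hsplit]; exact hcard
      _ ≤ 2 * x * (64 * C2 * u⁻¹) + 2 * (C1 * x * u⁻¹) := by
          have h3 : 2 * (x : ℝ) * ∑ q ∈ PP Y N, 1 / (q : ℝ) ≤ 2 * x * (64 * C2 * u⁻¹) :=
            mul_le_mul_of_nonneg_left hrec (by positivity)
          linarith
      _ ≤ (128 * C2 + 2 * C1 + 4) * x * u⁻¹ := by
          have h3 : 0 ≤ 4 * (x : ℝ) * u⁻¹ := by positivity
          nlinarith

end Pool.Agent.Helper17.FP
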